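import Pool.Agent.QCT.All

/-!
# Finite generation of `K'₀` for quadric bundles over ruled arithmetic surfaces
-/

namespace Pool.Agent.QCT.Shelf.QuadricBundles

open Pool.Agent.QCT Pool.Agent.Helper11 Pool.Agent.Helper67.Bass MvPolynomial

/-- The field `K` is a rational function field `F(t)` in one variable over a subfield `F` of
Kronecker dimension at most one. -/
def RuledField (K : Type) [Field K] : Prop :=
  ∃ (F : Subfield K) (t : K), KroneckerLeOne F ∧ Transcendental F t ∧
    IntermediateField.adjoin F {t} = ⊤

/-- Let `S` be a finitely generated commutative ring and `f ∈ S[y_1, …, y_n]` a polynomial of degree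
at most two. Suppose that for every prime ideal `P` of `S`
* the fraction field `K` of `S ⧸ P` has Kronecker dimension at most one, or
* `K = F(t)` is a rational function field in one variable over a field `F` of Kronecker dimension at
  most one, `2 ≠ 0` in `K`, and either `n = 2` and the quadratic form in `n + 1` variables over `K`
  obtained by homogenising `f` is nondegenerate, or the even Clifford algebra of this form is, modulo
  a nilpotent ideal, a finite product of matrix rings over `K` and over quaternion algebras over
  `K`.
Then `K'₀` of the quadric bundle `f = 0` over `Spec S` is finitely generated. -/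
theorem result {S : Type} [CommRing S] [Algebra.FiniteType ℤ S] {n : ℕ}
    (f : MvPolynomial (Fin n) S) (hf : f.totalDegree ≤ 2)
    (h : ∀ (P : Ideal S) [P.IsPrime], KroneckerLeOne (FractionRing (S ⧸ P)) ∨
      (RuledField (FractionRing (S ⧸ P)) ∧ (2 : S) ∉ P ∧
        (QuatSplit (FractionRing (S ⧸ P)) (CliffordAlgebra.even
            (hform (MvPolynomial.map (toFrac P) f))) ∨
          (n = 2 ∧
            (QuadraticMap.polarBilin (hform (MvPolynomial.map (toFrac P) f))).Nondegenerate)))) :
    AddGroup.FG (G0 (MvPolynomial (Fin n) S ⧸ Ideal.span {f})) := by
  refine ALL f hf ?_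
  intro P hP
  rcases h P with h | ⟨h1, h2, h3⟩
  · exact Or.inl h
  · exact Or.inr ⟨h2, h1, h3⟩

end Pool.Agent.QCT.Shelf.QuadricBundles
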